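import Pool.Agent.L5helper96.Cub.Defs
import Pool.Agent.L5helper96.NC.Arith
import Pool.Agent.L5helper67.DC.Assembled

/-!
CUBIC: the arithmetic.
-/

set_option autoImplicit false

namespace L5helper96.Cub

open Finset L5helper59.DC L5helper96.NC

theorem sq_le (L : ℕ) : 8 * L ^ 2 ≤ 9 * 2 ^ L := by
  rcases Nat.lt_or_ge L 4 with h | h
  · interval_cases L <;> norm_num
  · induction L, h using Nat.le_induction with
    | base => norm_num
    | succ n hn ih =>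
      rw [pow_succ 2 n]
      nlinarith

theorem two_mul_le (L : ℕ) (hL : 1 ≤ L) : 2 * L ≤ 2 ^ L := by
  induction L, hL using Nat.le_induction with
  | base => norm_num
  | succ n hn ih =>
    have : 2 ≤ 2 ^ n := by
      calc 2 = 2 ^ 1 := rfl
        _ ≤ 2 ^ n := Nat.pow_le_pow_right (by norm_num) hn
    rw [pow_succ]
    omega

theorem size3_le (L q : ℕ) (hN : 2 ^ L = 2 * q) (hL : 1 ≤ L) :
    size3 L (q + 1) ≤ 364 * 2 ^ L := by
  unfold size3 cost3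
  have h1 := sq_le L
  have h2 := two_mul_le L hL
  have h3 : 2 ≤ 2 ^ L := by
    calc 2 = 2 ^ 1 := rfl
      _ ≤ 2 ^ L := Nat.pow_le_pow_right (by norm_num) hL
  omega

/-- From the bound in powers of two to all `m`. -/
theorem cubic_form (c : ℕ) (hc : 1 ≤ c) (P : ℕ → ℕ → Prop)
    (h : ∀ L m M : ℕ, 1 ≤ L → c * 2 ^ L ≤ m → P m M → (2 ^ L) ^ 3 ≤ 64 * (M + 1))
    (m M : ℕ) (hm : 2 * c ≤ m) (H : P m M) :
    ((m : ℝ) / (8 * c)) ^ 3 ≤ (M : ℝ) + 1 := by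
  have hex : ∃ L : ℕ, m < c * 2 ^ (L + 1) := by
    refine ⟨m, ?_⟩
    have h1 : m + 1 < 2 ^ (m + 1) := Nat.lt_two_pow_self
    calc m < 2 ^ (m + 1) := by omega
      _ = 1 * 2 ^ (m + 1) := by ring
      _ ≤ c * 2 ^ (m + 1) := Nat.mul_le_mul_right _ hc
  classical
  obtain ⟨L, hL⟩ : ∃ L, L = Nat.find hex := ⟨_, rfl⟩
  have h1 : m < c * 2 ^ (L + 1) := by rw [hL]; exact Nat.find_spec hex
  have hL1 : 1 ≤ L := by
    by_contra hlt
    have : L = 0 := by omega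
    rw [this] at h1
    norm_num at h1
    omega
  have h2 : c * 2 ^ L ≤ m := by
    have := Nat.find_min hex (m := L - 1) (by omega)
    rw [show L - 1 + 1 = L by omega] at this
    omega
  have h3 := h L m M hL1 h2 H
  have hc' : (1 : ℝ) ≤ c := by exact_mod_cast hc
  have h6 : (m : ℝ) < c * 2 ^ (L + 1) := by exact_mod_cast h1
  have h8 : (m : ℝ) / (8 * c) ≤ 2 ^ L / 4 := by
    rw [div_le_div_iff₀ (by positivity) (by norm_num)]
    rw [pow_succ] at h6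
    nlinarith [h6]
  have h9 : ((m : ℝ) / (8 * c)) ^ 3 ≤ ((2 : ℝ) ^ L / 4) ^ 3 :=
    pow_le_pow_left₀ (by positivity) h8 3
  have h10 : ((2 : ℝ) ^ L) ^ 3 ≤ 64 * ((M : ℝ) + 1) := by exact_mod_cast h3
  calc ((m : ℝ) / (8 * c)) ^ 3 ≤ ((2 : ℝ) ^ L / 4) ^ 3 := h9
    _ = ((2 : ℝ) ^ L) ^ 3 / 64 := by ring
    _ ≤ (M : ℝ) + 1 := by linarith

/-- the statement of the part E3 -/
def Main3Stmt : Prop :=
  ∀ (L q m M : ℕ), 1 ≤ q → 2 ^ L = 2 * q → m = size3 L (q + 1) →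
    BorderRep m M → ∀ (a b : ℕ), 1 ≤ a → 1 ≤ b →
    (q.factorial ^ 2) ^ (2 * q) * (a ^ (2 * q * (2 * q) + 1) * b ^ (2 * M)) ≤
      (a + b) ^ (2 * M + 1) * (2 * b) ^ (2 * q * (2 * q))

theorem final3_of (h : Main3Stmt) (m M : ℕ) (hm : 728 ≤ m) (H : BorderRep m M) :
    ((m : ℝ) / 2912) ^ 3 ≤ (M : ℝ) + 1 := by
  have h1 := cubic_form 364 (by norm_num) BorderRep (fun L m' M' hL hm' H' => by
    obtain ⟨k, rfl⟩ : ∃ k, L = k + 1 := ⟨L - 1, by omega⟩
    have hN : 2 ^ (k + 1) = 2 * 2 ^ k := by rw [pow_succ]; ring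
    have hq : 1 ≤ 2 ^ k := Nat.one_le_two_pow
    have H2 := L5helper67.DC.borderRep_mono m' (size3 (k + 1) (2 ^ k + 1)) M'
      ((size3_le (k + 1) (2 ^ k) hN hL).trans hm') H'
    rw [hN]
    exact cubic (2 ^ k) M' hq (fun a b ha hb => h (k + 1) (2 ^ k) _ M' hq hN rfl H2 a b ha hb))
    m M (by omega) H
  have h2 : (8 * ((364 : ℕ) : ℝ)) = 2912 := by
    push_cast
    norm_num
  rw [h2] at h1
  exact h1

/-- The bound for all `m`. -/
theorem final3_all (h : Main3Stmt) (m M : ℕ) (H : BorderRep m M) :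
    ((m : ℝ) / 2912) ^ 3 ≤ (M : ℝ) + 1 := by
  rcases Nat.lt_or_ge m 728 with hm | hm
  · have h1 : (m : ℝ) / 2912 ≤ 1 := by
      have : (m : ℝ) < 728 := by exact_mod_cast hm
      rw [div_le_one (by norm_num)]
      linarith
    have h2 : ((m : ℝ) / 2912) ^ 3 ≤ 1 := pow_le_one₀ (by positivity) h1
    have h3 : (0 : ℝ) ≤ M := Nat.cast_nonneg M
    linarith
  · exact final3_of h m M hm H

end L5helper96.Cub
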