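import Mathlib

/-!
Weakly skew circuits and determinants (Toda, Malod–Portier).
-/

set_option autoImplicit false

namespace L5helper96.Cub

open MvPolynomial

section

variable {ι : Type} {K : Type*} [Field K]

/-- variables and constants -/
def Input (u : MvPolynomial ι K) : Prop := (∃ i, u = X i) ∨ ∃ c, u = C c

/-- `WS l s`: `l` lists the values of the gates of a weakly skew circuit (or of a part of it) with
`s` gates, which can still be used. A gate adds two values; or it multiplies one value with a value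
of a separate weakly skew circuit, which is not used anywhere else. -/
inductive WS : List (MvPolynomial ι K) → ℕ → Prop
  | nil : WS [] 0
  | add {l : List (MvPolynomial ι K)} {s : ℕ} {u v : MvPolynomial ι K} :
      WS l s → (u ∈ l ∨ Input u) → (v ∈ l ∨ Input v) → WS ((u + v) :: l) (s + 1)
  | mul {l l' : List (MvPolynomial ι K)} {s s' : ℕ} {u v : MvPolynomial ι K} :
      WS l s → WS l' s' → (u ∈ l ∨ Input u) → (v ∈ l' ∨ Input v) →
        WS ((u * v) :: l) (s + s' + 1)

theorem Input.degree {u : MvPolynomial ι K} (h : Input u) : u.totalDegree ≤ 1 := by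
  rcases h with ⟨i, rfl⟩ | ⟨c, rfl⟩
  · rw [totalDegree_X]
  · rw [totalDegree_C]
    exact zero_le_one

/-- the values `P` of the nodes of a branching program: `P = a + N P` -/
def Branch (T : Type) [Fintype T] [DecidableEq T] (P : T → MvPolynomial ι K) : Prop :=
  ∃ (a : T → MvPolynomial ι K) (N : Matrix T T (MvPolynomial ι K)),
    (∀ k, (a k).totalDegree ≤ 1) ∧ (∀ k j, (N k j).totalDegree ≤ 1) ∧ (1 - N).det = 1 ∧
      ∀ k, P k = a k + ∑ j, N k j * P j

variable {T T' : Type} [Fintype T] [DecidableEq T] [Fintype T'] [DecidableEq T']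

/-- one more node -/
theorem Branch.snoc {P : T → MvPolynomial ι K} (h : Branch T P) (p a₀ : MvPolynomial ι K)
    (b : T → MvPolynomial ι K) (ha₀ : a₀.totalDegree ≤ 1) (hb : ∀ t, (b t).totalDegree ≤ 1)
    (hp : p = a₀ + ∑ t, b t * P t) : Branch (T ⊕ Unit) (Sum.elim P fun _ => p) := by
  obtain ⟨a, N, ha, hN, hdet, hP⟩ := h
  refine ⟨Sum.elim a fun _ => a₀, Matrix.fromBlocks N 0 (Matrix.of fun _ t => b t) 0,
    ?_, ?_, ?_, ?_⟩
  · rintro (k | k)
    · exact ha k
    · exact ha₀
  · rintro (k | k) (j | j)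
    · exact hN k j
    · simp
    · exact hb j
    · simp
  · rw [← Matrix.fromBlocks_one, sub_eq_add_neg, Matrix.fromBlocks_neg, Matrix.fromBlocks_add]
    simp only [neg_zero, add_zero, zero_add]
    rw [Matrix.det_fromBlocks_zero₁₂, ← sub_eq_add_neg, hdet]
    simp
  · rintro (k | k)
    · rw [Fintype.sum_sum_type]
      simp [hP k]
    · rw [Fintype.sum_sum_type]
      simp [hp]

/-- a second program multiplied by the value of a node of the first one -/
theorem Branch.glue {P : T → MvPolynomial ι K} {P' : T' → MvPolynomial ι K} (h : Branch T P)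
    (h' : Branch T' P') (t : T) : Branch (T ⊕ T') (Sum.elim P fun j => P t * P' j) := by
  obtain ⟨a, N, ha, hN, hdet, hP⟩ := h
  obtain ⟨a', N', ha', hN', hdet', hP'⟩ := h'
  refine ⟨Sum.elim a fun _ => 0, Matrix.fromBlocks N 0
    (Matrix.of fun k j => if j = t then a' k else 0) N', ?_, ?_, ?_, ?_⟩
  · rintro (k | k)
    · exact ha k
    · simp
  · rintro (k | k) (j | j)
    · exact hN k j
    · simp
    · simp only [Matrix.fromBlocks_apply₂₁, Matrix.of_apply]
      split_ifs
      · exact ha' k
      · simp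
    · exact hN' k j
  · rw [← Matrix.fromBlocks_one, sub_eq_add_neg, Matrix.fromBlocks_neg, Matrix.fromBlocks_add]
    simp only [neg_zero, add_zero, zero_add]
    rw [Matrix.det_fromBlocks_zero₁₂, ← sub_eq_add_neg, ← sub_eq_add_neg, hdet, hdet', one_mul]
  · rintro (k | k)
    · rw [Fintype.sum_sum_type]
      simp [hP k]
    · rw [Fintype.sum_sum_type]
      simp only [Sum.elim_inr, Sum.elim_inl, Matrix.fromBlocks_apply₂₁, Matrix.of_apply,
        Matrix.fromBlocks_apply₂₂, ite_mul, zero_mul, Finset.sum_ite_eq', Finset.mem_univ,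
        if_true, zero_add]
      rw [hP' k, mul_add, Finset.mul_sum]
      rw [mul_comm (P t) (a' k)]
      congr 1
      refine Finset.sum_congr rfl fun j _ => ?_
      ring

/-- the values of all gates are values of nodes of a branching program with `2 s` nodes -/
theorem WS.branch {l : List (MvPolynomial ι K)} {s : ℕ} (h : WS l s) :
    ∃ (T : Type) (_ : Fintype T) (_ : DecidableEq T) (P : T → MvPolynomial ι K),
      Branch T P ∧ Fintype.card T ≤ 2 * s ∧ ∀ u ∈ l, ∃ t, P t = u := by
  induction h with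
  | nil =>
    refine ⟨Empty, inferInstance, inferInstance, fun e => e.elim, ?_, by simp, by simp⟩
    exact ⟨fun e => e.elim, fun e => e.elim, fun e => e.elim, fun e => e.elim, by simp,
      fun e => e.elim⟩
  | @add l s u v h hu hv ih =>
    obtain ⟨T, _, _, P, hP, hc, hl⟩ := ih
    -- a value as a combination of the nodes
    have key : ∀ u : MvPolynomial ι K, (u ∈ l ∨ Input u) → ∃ (a₀ : MvPolynomial ι K)
        (b : T → MvPolynomial ι K), a₀.totalDegree ≤ 1 ∧ (∀ t, (b t).totalDegree ≤ 1) ∧
        u = a₀ + ∑ t, b t * P t := by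
      rintro u (hu | hu)
      · obtain ⟨t, ht⟩ := hl u hu
        refine ⟨0, fun j => if j = t then 1 else 0, by simp, ?_, ?_⟩
        · intro j
          beta_reduce
          split_ifs <;> simp
        · simp [ht]
      · exact ⟨u, fun _ => 0, hu.degree, fun _ => by simp, by simp⟩
    obtain ⟨a₁, b₁, ha₁, hb₁, e₁⟩ := key u hu
    obtain ⟨a₂, b₂, ha₂, hb₂, e₂⟩ := key v hv
    refine ⟨T ⊕ Unit, inferInstance, inferInstance, _,
      hP.snoc (u + v) (a₁ + a₂) (fun t => b₁ t + b₂ t)
        ((totalDegree_add _ _).trans (max_le ha₁ ha₂))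
        (fun t => (totalDegree_add _ _).trans (max_le (hb₁ t) (hb₂ t))) ?_, ?_, ?_⟩
    · conv_lhs => rw [e₁, e₂]
      simp only [add_mul, Finset.sum_add_distrib]
      ring
    · rw [Fintype.card_sum, Fintype.card_unit]
      omega
    · intro w hw
      rcases List.mem_cons.1 hw with rfl | hw
      · exact ⟨Sum.inr (), rfl⟩
      · obtain ⟨t, ht⟩ := hl w hw
        exact ⟨Sum.inl t, ht⟩
  | @mul l l' s s' u v h h' hu hv ih ih' =>
    obtain ⟨T, _, _, P, hP, hc, hl⟩ := ih
    obtain ⟨T', _, _, P', hP', hc', hl'⟩ := ih'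
    -- a program which contains `u`
    obtain ⟨T₁, _, _, P₁, hP₁, hc₁, hl₁, t₁, ht₁⟩ : ∃ (T₁ : Type) (_ : Fintype T₁)
        (_ : DecidableEq T₁) (P₁ : T₁ → MvPolynomial ι K), Branch T₁ P₁ ∧
        Fintype.card T₁ ≤ 2 * s + 1 ∧ (∀ u ∈ l, ∃ t, P₁ t = u) ∧ ∃ t₁, P₁ t₁ = u := by
      rcases hu with hu | hu
      · exact ⟨T, inferInstance, inferInstance, P, hP, by omega, hl, hl u hu⟩
      · refine ⟨T ⊕ Unit, inferInstance, inferInstance, _,
          hP.snoc u u (fun _ => 0) hu.degree (fun _ => by simp) (by simp), ?_, ?_, ?_⟩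
        · rw [Fintype.card_sum, Fintype.card_unit]
          omega
        · intro w hw
          obtain ⟨t, ht⟩ := hl w hw
          exact ⟨Sum.inl t, ht⟩
        · exact ⟨Sum.inr (), rfl⟩
    rcases hv with hv | hv
    · obtain ⟨t', ht'⟩ := hl' v hv
      refine ⟨T₁ ⊕ T', inferInstance, inferInstance, _, hP₁.glue hP' t₁, ?_, ?_⟩
      · rw [Fintype.card_sum]
        omega
      · intro w hw
        rcases List.mem_cons.1 hw with rfl | hw
        · exact ⟨Sum.inr t', by simp [ht₁, ht']⟩
        · obtain ⟨t, ht⟩ := hl₁ w hw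
          exact ⟨Sum.inl t, ht⟩
    · refine ⟨T₁ ⊕ Unit, inferInstance, inferInstance, _,
        hP₁.snoc (u * v) 0 (fun t => if t = t₁ then v else 0) (by simp) ?_ ?_, ?_, ?_⟩
      · intro t
        beta_reduce
        split_ifs
        · exact hv.degree
        · simp
      · simp [ht₁, mul_comm]
      · rw [Fintype.card_sum, Fintype.card_unit]
        omega
      · intro w hw
        rcases List.mem_cons.1 hw with rfl | hw
        · exact ⟨Sum.inr (), rfl⟩
        · obtain ⟨t, ht⟩ := hl₁ w hw
          exact ⟨Sum.inl t, ht⟩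

/-- the value of a node is a determinant -/
theorem Branch.det {P : T → MvPolynomial ι K} (h : Branch T P) (t : T) :
    ∃ A : Matrix T T (MvPolynomial ι K), (∀ i j, (A i j).totalDegree ≤ 1) ∧ A.det = P t := by
  obtain ⟨a, N, ha, hN, hdet, hP⟩ := h
  refine ⟨(1 - N).updateCol t a, ?_, ?_⟩
  · intro i j
    rw [Matrix.updateCol_apply]
    split_ifs
    · exact ha i
    · rw [Matrix.sub_apply, Matrix.one_apply]
      refine (totalDegree_sub _ _).trans (max_le ?_ (hN i j))
      split_ifs <;> simp
  · have h1 : (1 - N).mulVec P = a := by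
      funext k
      rw [Matrix.sub_mulVec, Matrix.one_mulVec, Pi.sub_apply]
      rw [hP k]
      simp [Matrix.mulVec, dotProduct]
    rw [← Matrix.cramer_apply, Matrix.cramer_eq_adjugate_mulVec, ← h1, Matrix.mulVec_mulVec,
      Matrix.adjugate_mul, hdet, one_smul, Matrix.one_mulVec]

/-- Weakly skew circuits with `s` gates compute determinants of size `n` for every `n ≥ 2 s`. -/
theorem WS.det {l : List (MvPolynomial ι K)} {s : ℕ} (h : WS l s) (f : MvPolynomial ι K)
    (hf : f ∈ l) (n : ℕ) (hn : 2 * s ≤ n) :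
    ∃ A : Matrix (Fin n) (Fin n) (MvPolynomial ι K),
      (∀ i j, (A i j).totalDegree ≤ 1) ∧ A.det = f := by
  obtain ⟨T, _, _, P, hP, hc, hl⟩ := h.branch
  obtain ⟨t, ht⟩ := hl f hf
  obtain ⟨A, hA, hdet⟩ := hP.det t
  have hcard : Fintype.card (T ⊕ Fin (n - Fintype.card T)) = n := by
    rw [Fintype.card_sum, Fintype.card_fin]
    omega
  let e : (T ⊕ Fin (n - Fintype.card T)) ≃ Fin n := Fintype.equivFinOfCardEq hcard
  refine ⟨Matrix.reindex e e (Matrix.fromBlocks A 0 0 1), ?_, ?_⟩
  · intro i j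
    rw [Matrix.reindex_apply, Matrix.submatrix_apply]
    rcases e.symm i with x | x <;> rcases e.symm j with y | y
    · exact hA x y
    · simp
    · simp
    · rw [Matrix.fromBlocks_apply₂₂, Matrix.one_apply]
      split_ifs <;> simp
  · rw [Matrix.det_reindex_self, Matrix.det_fromBlocks_zero₁₂, Matrix.det_one, mul_one, hdet, ht]

/-- The same for values which may be inputs. -/
theorem WS.det_of_avail {l : List (MvPolynomial ι K)} {s : ℕ} (h : WS l s)
    (f : MvPolynomial ι K) (hf : f ∈ l ∨ Input f) (n : ℕ) (hn : 2 * s ≤ n) (hn1 : 1 ≤ n) :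
    ∃ A : Matrix (Fin n) (Fin n) (MvPolynomial ι K),
      (∀ i j, (A i j).totalDegree ≤ 1) ∧ A.det = f := by
  rcases hf with hf | hf
  · exact h.det f hf n hn
  · obtain ⟨k, rfl⟩ : ∃ k, n = k + 1 := ⟨n - 1, by omega⟩
    refine ⟨Matrix.diagonal (fun i => if i = 0 then f else 1), ?_, ?_⟩
    · intro i j
      rw [Matrix.diagonal_apply]
      split_ifs
      · exact hf.degree
      · simp
      · simp
    · rw [Matrix.det_diagonal, Fin.prod_univ_succ]
      simp

end

end L5helper96.Cub
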