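import Pool.Agent.L5helper96.Cub.Net
import Pool.Agent.L5helper96.NC.Defs2

/-!
CUBIC: definitions.
-/

set_option autoImplicit false

namespace L5helper96.Cub

open Finset

/-- the number with the binary digits `x 0, ..., x (k - 1)` -/
def val (k : ℕ) (x : ℕ → Bool) : ℕ := ∑ b ∈ range k, 2 ^ b * (x b).toNat

/-- the cost of the sum over the `2 ^ L` colours -/
def cost3 (L : ℕ) : ℕ := 336 * 2 ^ L + (17 * L ^ 2 + 9 * L)

/-- the size of the permanent -/
def size3 (L r : ℕ) : ℕ := 2 ^ L + 2 * 2 ^ L + (r + cost3 L)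

end L5helper96.Cub
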