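import Pool.Agent.L5helper96.Cub.Net

/-!
CUBIC: the sum over `z < 2 ^ L`.
-/

set_option autoImplicit false

namespace L5helper96.Cub

open Finset L5helper34.NC

theorem sum_even_odd (L : ℕ) (τ W : ℂ) :
    (∑ z ∈ range (2 ^ L), (τ ^ 4) ^ (z ^ 2) * (W ^ 2) ^ z) +
      τ * W * ∑ z ∈ range (2 ^ L), (τ ^ 4) ^ (z ^ 2) * (τ ^ 4 * W ^ 2) ^ z =
      ∑ z ∈ range (2 ^ (L + 1)), τ ^ (z ^ 2) * W ^ z := by
  have h : ∀ n : ℕ, ∑ z ∈ range (2 * n), τ ^ (z ^ 2) * W ^ z =
      ∑ z ∈ range n, (τ ^ ((2 * z) ^ 2) * W ^ (2 * z) +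
        τ ^ ((2 * z + 1) ^ 2) * W ^ (2 * z + 1)) := by
    intro n
    induction n with
    | zero => simp
    | succ n ih =>
      rw [Nat.mul_succ, sum_range_succ, sum_range_succ, sum_range_succ _ n, ih]
      ring
  have e : 2 ^ (L + 1) = 2 * 2 ^ L := by rw [pow_succ, mul_comm]
  rw [e, h, mul_sum, ← sum_add_distrib]
  refine sum_congr rfl fun z _ => ?_
  ring

theorem Net.multi' (hG : GateStmt) (L : ℕ) : ∀ {V : Type} [DecidableEq V] (F : Finset V)
    (θ : V → ℂ) (_ : ∀ v, θ v ≠ 0) (τ : ℂ) (_ : τ ≠ 0),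
    Net V (fun x => ∑ z ∈ range (2 ^ L), τ ^ (z ^ 2) * (∏ v ∈ F, if x v then θ v else 1) ^ z)
      (2 * L * F.card + L ^ 2 + L) := by
  induction L with
  | zero =>
    intro V _ F θ _ τ _
    refine (Net.one V).congr (fun x => ?_) (by simp)
    simp
  | succ L ih =>
    intro V _ F θ hθ τ hτ
    have h1 := ih (V := Option V) (Finset.insertNone F)
      (fun o => o.elim (τ ^ 4) fun v => θ v ^ 2)
      (by
        rintro (_ | v)
        · exact pow_ne_zero _ hτ
        · exact pow_ne_zero _ (hθ v)) (τ ^ 4) (pow_ne_zero _ hτ)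
    have h2 := Net.step hG h1 F θ hθ τ
    have key : ∀ (b : Bool) (x : V → Bool), (∏ o ∈ Finset.insertNone F,
        if cons b x o then (o.elim (τ ^ 4) fun v => θ v ^ 2 : ℂ) else 1) =
        (if b then τ ^ 4 else 1) * (∏ v ∈ F, if x v then θ v else 1) ^ 2 := by
      intro b x
      rw [Finset.prod_insertNone]
      congr 1
      rw [← Finset.prod_pow]
      refine Finset.prod_congr rfl fun v _ => ?_
      simp only [cons, Option.elim_some]
      split_ifs <;> simp
    refine h2.congr (fun x => ?_) ?_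
    · simp only [key]
      simp only [Bool.false_eq_true, if_false, if_true, one_mul]
      exact sum_even_odd L τ _
    · rw [Finset.card_insertNone]
      ring

end L5helper96.Cub
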