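import Pool.Agent.L5helper34.NC.Step
import Pool.Agent.L5helper18.NC.Ports

/-!
CUBIC: multipliers of nets. `Net V g c`: every net `w` can be multiplied by the function `g` of the
occupation of any ports named by `V`, at the cost of `c` more rows and columns.
-/

set_option autoImplicit false

namespace L5helper96.Cub

open Finset MvPolynomial L5lead.NC L5helper34.NC

/-- the occupation of the ports named by `e` -/
def conf {V α β : Type} [DecidableEq α] [DecidableEq β] (e : V → α ⊕ β) (S : Finset α)
    (T : Finset β) : V → Bool :=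
  fun v => Sum.elim (fun a => decide (a ∈ S)) (fun b => decide (b ∈ T)) (e v)

/-- multipliers of nets -/
def Net (V : Type) (g : (V → Bool) → ℂ) (c : ℕ) : Prop :=
  ∀ (ι α β : Type) [Fintype α] [Fintype β] [DecidableEq α] [DecidableEq β] (e : V → α ⊕ β)
    (p : ℕ) (w : Finset α → Finset β → MvPolynomial ι ℂ), Rep α β p w →
    ∃ K : ℂ, K ≠ 0 ∧ Rep α β (p + c) (fun S T => C (K * g (conf e S T)) * w S T)

/-- add one value in front -/
def cons {V : Type} (b : Bool) (x : V → Bool) : Option V → Bool := fun o => o.elim b x

theorem Net.one (V : Type) : Net V (fun _ => 1) 0 := by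
  intro ι α β _ _ _ _ e p w h
  refine ⟨1, one_ne_zero, ?_⟩
  simpa using h

theorem Net.mul {V : Type} {g g' : (V → Bool) → ℂ} {c c' : ℕ} (h : Net V g c)
    (h' : Net V g' c') : Net V (fun x => g x * g' x) (c + c') := by
  intro ι α β _ _ _ _ e p w hw
  obtain ⟨K, hK, h1⟩ := h ι α β e p w hw
  obtain ⟨K', hK', h2⟩ := h' ι α β e _ _ h1
  refine ⟨K * K', mul_ne_zero hK hK', ?_⟩
  rw [← add_assoc]
  convert h2 using 3 with S T
  simp only [C_mul]
  ring

theorem Net.map {V V' : Type} (f : V → V') {g : (V → Bool) → ℂ} {c : ℕ} (h : Net V g c) :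
    Net V' (fun x => g (x ∘ f)) c := by
  intro ι α β _ _ _ _ e p w hw
  exact h ι α β (e ∘ f) p w hw

theorem Net.smul {V : Type} {g : (V → Bool) → ℂ} {c : ℕ} (k : ℂ) (hk : k ≠ 0)
    (h : Net V (fun x => k * g x) c) : Net V g c := by
  intro ι α β _ _ _ _ e p w hw
  obtain ⟨K, hK, h1⟩ := h ι α β e p w hw
  refine ⟨K * k, mul_ne_zero hK hk, ?_⟩
  convert h1 using 4 with S T
  ring

theorem Net.congr {V : Type} {g g' : (V → Bool) → ℂ} {c c' : ℕ} (h : Net V g c)
    (hg : ∀ x, g x = g' x) (hc : c = c') : Net V g' c' := by
  subst hc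
  have : g = g' := funext hg
  rwa [← this]

theorem Rep_mono_one {ι α β : Type} [Fintype α] [Fintype β] [DecidableEq α] [DecidableEq β]
    {p : ℕ} {w : Finset α → Finset β → MvPolynomial ι ℂ} (h : Rep α β p w) :
    Rep α β p (fun S T => C 1 * w S T) := by
  simpa using h

/-- weight of one occupied port -/
theorem Net.unary {V : Type} (v : V) (μ : ℂ) : Net V (fun x => if x v then μ else 1) 0 := by
  intro ι α β _ _ _ _ e p w hw
  refine ⟨1, one_ne_zero, ?_⟩
  rcases hv : e v with a | b
  · have h1 := (Rep.scale hw.transpose a μ).transpose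
    have h3 : (fun (S : Finset α) (T : Finset β) => (C (1 * if conf e S T v then μ else 1) :
        MvPolynomial ι ℂ) * w S T) =
        fun S T => (if a ∈ S then C μ else 1) * w S T := by
      funext S T
      have h2 : conf e S T v = decide (a ∈ S) := by simp [conf, hv]
      rw [one_mul, h2]
      by_cases h : a ∈ S
      · rw [if_pos h, if_pos (by simpa using h)]
      · rw [if_neg h, if_neg (by simpa using h), C_1]
    rw [h3]
    exact h1
  · have h1 := Rep.scale hw b μ
    have h3 : (fun (S : Finset α) (T : Finset β) => (C (1 * if conf e S T v then μ else 1) :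
        MvPolynomial ι ℂ) * w S T) =
        fun S T => (if b ∈ T then C μ else 1) * w S T := by
      funext S T
      have h2 : conf e S T v = decide (b ∈ T) := by simp [conf, hv]
      rw [one_mul, h2]
      by_cases h : b ∈ T
      · rw [if_pos h, if_pos (by simpa using h)]
      · rw [if_neg h, if_neg (by simpa using h), C_1]
    rw [h3]
    exact h1

section Step

variable {ι α β : Type} [Fintype α] [Fintype β] [DecidableEq α] [DecidableEq β] {V : Type}

/-- the condition of the gate between `none` and the port of `v` -/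
def act (e : V → α ⊕ β) (S : Finset (Option α)) (T : Finset (Option β)) (v : V) : Prop :=
  Sum.elim (fun a => none ∈ S ∧ some a ∈ S) (fun b => none ∈ T ∧ some b ∈ T) (e v)

instance (e : V → α ⊕ β) (S : Finset (Option α)) (T : Finset (Option β)) (v : V) :
    Decidable (act e S T v) := by
  unfold act
  rcases e v with a | b
  · exact inferInstanceAs (Decidable (none ∈ S ∧ some a ∈ S))
  · exact inferInstanceAs (Decidable (none ∈ T ∧ some b ∈ T))

theorem gates_aux (hG : GateStmt) [DecidableEq V] {p : ℕ}
    {w : Finset (Option α) → Finset (Option β) → MvPolynomial ι ℂ}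
    (h : Rep (Option α) (Option β) p w) (e : V → α ⊕ β) (s : V → ℂ) (U : Finset V) :
    Rep (Option α) (Option β) (p + 2 * U.card) (fun S T => C (∏ v ∈ U, s v) *
      C (∏ v ∈ U, if act e S T v then s v ^ 2 else 1) * w S T) := by
  induction U using Finset.induction_on with
  | empty => simpa using h
  | insert v U hv ih =>
    rw [Finset.card_insert_of_notMem hv, Nat.mul_succ, ← add_assoc]
    rcases he : e v with a | b
    · have h1 := (hG ih.transpose none (some a) (by simp) (s v)).transpose
      convert h1 using 3 with S T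
      rw [Finset.prod_insert hv, Finset.prod_insert hv, C_mul, C_mul]
      have h2 : act e S T v ↔ (none ∈ S ∧ some a ∈ S) := by
        unfold act
        rw [he]
        rfl
      by_cases h3 : none ∈ S ∧ some a ∈ S
      · rw [if_pos h3, if_pos (h2.2 h3)]
        ring
      · rw [if_neg h3, if_neg (fun h => h3 (h2.1 h)), C_1]
        ring
    · have h1 := hG ih none (some b) (by simp) (s v)
      convert h1 using 3 with S T
      rw [Finset.prod_insert hv, Finset.prod_insert hv, C_mul, C_mul]
      have h2 : act e S T v ↔ (none ∈ T ∧ some b ∈ T) := by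
        unfold act
        rw [he]
        rfl
      by_cases h3 : none ∈ T ∧ some b ∈ T
      · rw [if_pos h3, if_pos (h2.2 h3)]
        ring
      · rw [if_neg h3, if_neg (fun h => h3 (h2.1 h)), C_1]
        ring

end Step

/-- a new hidden bit which is coupled with the ports in `F` -/
theorem Net.step (hG : GateStmt) {V : Type} [DecidableEq V] {g : (Option V → Bool) → ℂ} {c : ℕ}
    (h : Net (Option V) g c) (F : Finset V) (θ : V → ℂ) (hθ : ∀ v, θ v ≠ 0) (μ : ℂ) :
    Net V (fun x => g (cons false x) + μ * (∏ v ∈ F, if x v then θ v else 1) *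
      g (cons true x)) (c + 2 * F.card + 2) := by
  intro ι α β _ _ _ _ e p w hw
  choose s hs using fun v => IsAlgClosed.exists_pow_nat_eq (θ v) two_pos
  have hs0 : ∀ v, s v ≠ 0 := by
    intro v h0
    apply hθ v
    rw [← hs v, h0, zero_pow two_ne_zero]
  -- the new ports
  let e' : Option V → Option α ⊕ Option β := fun o =>
    o.elim (Sum.inr none) (fun v => Sum.map some some (e v))
  obtain ⟨K, hK, h1⟩ := h ι (Option α) (Option β) e' p _ (Rep.extend hw)
  have h2 := Rep.scale (gates_aux hG h1 e s F) none μ
  have h3 := Rep.close h2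
  refine ⟨(∏ v ∈ F, s v) * K, mul_ne_zero (Finset.prod_ne_zero_iff.2 fun v _ => hs0 v) hK, ?_⟩
  have hp : p + (c + 2 * F.card + 2) = p + c + 2 * F.card + 2 := by ring
  rw [hp]
  convert h3 using 3 with S T
  have c1 : conf e' (S.map .some) (T.map .some) = cons false (conf e S T) := by
    funext o
    rcases o with _ | v
    · simp [conf, cons, e']
    · rcases hv : e v with a | b <;> simp [conf, cons, e', hv]
  have c2 : conf e' (Finset.insertNone S) (Finset.insertNone T) = cons true (conf e S T) := by
    funext o
    rcases o with _ | v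
    · simp [conf, cons, e']
    · rcases hv : e v with a | b <;> simp [conf, cons, e', hv]
  have a1 : ∀ v, ¬ act e (S.map .some) (T.map .some) v := by
    intro v
    unfold act
    rcases e v with a | b <;> simp
  have a2 : ∀ v, act e (Finset.insertNone S) (Finset.insertNone T) v ↔
      conf e S T v = true := by
    intro v
    unfold act conf
    rcases e v with a | b <;> simp
  rw [c1, c2]
  have p1 : (∏ v ∈ F, if act e (S.map .some) (T.map .some) v then s v ^ 2 else 1) = 1 :=
    Finset.prod_eq_one fun v _ => if_neg (a1 v)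
  have p2 : (∏ v ∈ F, if act e (Finset.insertNone S) (Finset.insertNone T) v then s v ^ 2
      else 1) = ∏ v ∈ F, if conf e S T v then θ v else 1 := by
    refine Finset.prod_congr rfl fun v _ => ?_
    by_cases hv : conf e S T v = true
    · rw [if_pos ((a2 v).2 hv), if_pos hv, hs]
    · rw [if_neg (fun h => hv ((a2 v).1 h)), if_neg hv]
  rw [p1, p2]
  have n1 : (none : Option β) ∉ T.map .some := by simp
  have n2 : (none : Option β) ∈ Finset.insertNone T := by simp
  have n3 : (none : Option α) ∉ S.map .some := by simp
  have n4 : (none : Option α) ∈ Finset.insertNone S := by simp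
  rw [if_neg n1, if_pos n2, if_pos (iff_of_false n3 n1), if_pos (iff_of_true n4 n2)]
  rw [Finset.eraseNone_insertNone, Finset.eraseNone_insertNone]
  have m1 : (S.map (.some : α ↪ Option α)).eraseNone = S := by ext; simp
  have m2 : (T.map (.some : β ↪ Option β)).eraseNone = T := by ext; simp
  rw [m1, m2]
  simp only [C_mul, C_add, C_1]
  ring

/-- hiding a bit -/
theorem Net.hide (hG : GateStmt) {V : Type} {g : (Option V → Bool) → ℂ} {c : ℕ}
    (h : Net (Option V) g c) : Net V (fun x => g (cons false x) + g (cons true x)) (c + 2) := by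
  classical
  refine (Net.step hG h ∅ (fun _ => 1) (fun _ => one_ne_zero) 1).congr (fun x => ?_) (by simp)
  simp

/-- a global bit -/
theorem Net.clo (hG : GateStmt) {V : Type} [DecidableEq V] (F : Finset V) (θ : V → ℂ)
    (hθ : ∀ v, θ v ≠ 0) (μ : ℂ) :
    Net V (fun x => 1 + μ * ∏ v ∈ F, if x v then θ v else 1) (2 * F.card + 2) := by
  refine (Net.step hG (Net.one (Option V)) F θ hθ μ).congr (fun x => ?_) (by ring)
  ring

end L5helper96.Cub
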